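import Mathlib

set_option autoImplicit false

namespace Pool.Agent.Results.MP_8c6834_co.Drop

/-- `F` contains an induced copy of `P` -/
def HasCopy (P : Type) [PartialOrder P] {n t : ℕ} (F : Finset (Fin n → Fin t)) : Prop :=
  ∃ φ : P → (Fin n → Fin t), Function.Injective φ ∧ (∀ x y, φ x ≤ φ y ↔ x ≤ y) ∧ ∀ x, φ x ∈ F

def Saturated (P : Type) [PartialOrder P] {n t : ℕ} (F : Finset (Fin n → Fin t)) : Prop :=
  ¬ HasCopy P F ∧ ∀ f ∉ F, HasCopy P (insert f F)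

noncomputable def sat (P : Type) [PartialOrder P] (n t : ℕ) : ℕ :=
  sInf {k | ∃ F : Finset (Fin n → Fin t), Saturated P F ∧ F.card = k}

def Q := Fin 6

instance : Fintype Q := inferInstanceAs (Fintype (Fin 6))

def r (i j : Fin 6) : Bool := i == j || (i == 0 && j == 5) || (i == 1 && j == 5) || (i == 2 && j == 4)

instance : PartialOrder Q where
  le i j := r i j = true
  le_refl := by intro (i : Fin 6); revert i; decide
  le_trans := by intro (i : Fin 6) (j : Fin 6) (k : Fin 6); revert i j k; decide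
  le_antisymm := (by decide : ∀ i j : Fin 6, r i j = true → r j i = true → i = j)

def V (n a : ℕ) : Fin n → Fin 2 := fun i => if a.testBit i then 1 else 0

def le (a b : ℕ) : Bool := a &&& b == a

def c (i j : Fin 6) (a b : ℕ) : Bool := (le a b == r i j) && (le b a == r j i)

def search (L : List ℕ) (p : List ℕ → Bool) : Bool :=
  L.any fun a => L.any fun b => c 0 1 a b && L.any fun d => c 0 2 a d && c 1 2 b d &&
  L.any fun e => c 0 3 a e && c 1 3 b e && c 2 3 d e &&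
  L.any fun f => c 0 4 a f && c 1 4 b f && c 2 4 d f && c 3 4 e f &&
  L.any fun g => c 0 5 a g && c 1 5 b g && c 2 5 d g && c 3 5 e g && c 4 5 f g && p [a, b, d, e, f, g]

theorem search_iff (L : List ℕ) (p : List ℕ → Bool) : search L p = true ↔
    ∃ φ : Fin 6 → ℕ, (∀ i j, le (φ i) (φ j) = r i j) ∧ (∀ i, φ i ∈ L) ∧
      p [φ 0, φ 1, φ 2, φ 3, φ 4, φ 5] = true := by
  simp only [search, List.any_eq_true, Bool.and_eq_true, c, beq_iff_eq]
  constructor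
  · rintro ⟨a, ha, b, hb, h1, d, hd, h2, e, he, h3, f, hf, h4, g, hg, h5, hp⟩
    refine ⟨![a, b, d, e, f, g], fun i j => ?_, fun i => ?_, hp⟩
    · have : ∀ x, le x x = true := fun x => by simp [le]
      fin_cases i <;> fin_cases j <;> simp only [this, h1, h2, h3, h4, h5, Fin.zero_eta, Fin.mk_one,
        Fin.reduceFinMk, Matrix.cons_val] <;> rfl
    · fin_cases i <;> simp [*]
  · rintro ⟨φ, h1, h2, hp⟩
    refine ⟨φ 0, h2 0, φ 1, h2 1, ?_, φ 2, h2 2, ?_, φ 3, h2 3, ?_, φ 4, h2 4, ?_, φ 5, h2 5, ?_, hp⟩ <;>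
      simp only [h1, and_self]

theorem copy_iff (n : ℕ) (h1 : ∀ a < 2 ^ n, ∀ b < 2 ^ n, V n a ≤ V n b ↔ le a b = true)
    (h2 : ∀ f, ∃ a < 2 ^ n, V n a = f) (F : Finset (Fin n → Fin 2)) :
    HasCopy Q F ↔ ∃ φ : Fin 6 → ℕ, (∀ i j, le (φ i) (φ j) = r i j) ∧
      ∀ i, φ i < 2 ^ n ∧ V n (φ i) ∈ F := by
  constructor
  · rintro ⟨φ, -, a, b⟩
    choose g g1 g2 using h2
    refine ⟨fun i => g (φ i), fun i j => ?_, fun i => ⟨g1 _, by rw [g2]; exact b i⟩⟩
    rw [Bool.eq_iff_iff, ← h1 _ (g1 _) _ (g1 _), g2, g2]; exact a i j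
  · rintro ⟨φ, a, b⟩
    have : ∀ x y : Q, V n (φ x) ≤ V n (φ y) ↔ x ≤ y := fun x y => by
      rw [h1 _ (b x).1 _ (b y).1, a]; rfl
    exact ⟨fun x => V n (φ x), fun x y h => le_antisymm ((this x y).1 (le_of_eq h))
      ((this y x).1 (le_of_eq h.symm)), this, fun x => (b x).2⟩

theorem a4 : ∀ a < 2 ^ 4, ∀ b < 2 ^ 4, V 4 a ≤ V 4 b ↔ le a b = true :=
  (by decide +kernel : ∀ a < 2 ^ 4, ∀ b < 2 ^ 4, (∀ i, V 4 a i ≤ V 4 b i) ↔ le a b = true)
theorem b4 : ∀ f, ∃ a < 2 ^ 4, V 4 a = f := by decide +kernel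
theorem c4 : ∀ a < 2 ^ 4, ∀ b < 2 ^ 4, V 4 a = V 4 b → a = b := by decide +kernel
theorem a5 : ∀ a < 2 ^ 5, ∀ b < 2 ^ 5, V 5 a ≤ V 5 b ↔ le a b = true :=
  (by decide +kernel : ∀ a < 2 ^ 5, ∀ b < 2 ^ 5, (∀ i, V 5 a i ≤ V 5 b i) ↔ le a b = true)
theorem b5 : ∀ f, ∃ a < 2 ^ 5, V 5 a = f := by decide +kernel
theorem c5 : ∀ a < 2 ^ 5, ∀ b < 2 ^ 5, V 5 a = V 5 b → a = b := by decide +kernel

def T : List (List ℕ) := [[3, 5, 10, 9, 14, 7],
  [3, 5, 12, 9, 14, 7],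
  [3, 6, 9, 10, 13, 7],
  [3, 6, 12, 10, 13, 7],
  [3, 9, 6, 5, 14, 11],
  [3, 9, 12, 5, 14, 11],
  [3, 10, 5, 6, 13, 11],
  [3, 10, 12, 6, 13, 11],
  [5, 3, 10, 9, 14, 7],
  [5, 3, 12, 9, 14, 7],
  [5, 6, 9, 12, 11, 7],
  [5, 6, 10, 12, 11, 7],
  [5, 9, 6, 3, 14, 13],
  [5, 9, 10, 3, 14, 13],
  [5, 12, 3, 6, 11, 13],
  [5, 12, 10, 6, 11, 13],
  [6, 3, 9, 10, 13, 7],
  [6, 3, 12, 10, 13, 7],
  [6, 5, 9, 12, 11, 7],
  [6, 5, 10, 12, 11, 7],
  [6, 10, 5, 3, 13, 14],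
  [6, 10, 9, 3, 13, 14],
  [6, 12, 3, 5, 11, 14],
  [6, 12, 9, 5, 11, 14],
  [9, 3, 6, 5, 14, 11],
  [9, 3, 12, 5, 14, 11],
  [9, 5, 6, 3, 14, 13],
  [9, 5, 10, 3, 14, 13],
  [9, 10, 5, 12, 7, 11],
  [9, 10, 6, 12, 7, 11],
  [9, 12, 3, 10, 7, 13],
  [9, 12, 6, 10, 7, 13],
  [10, 3, 5, 6, 13, 11],
  [10, 3, 12, 6, 13, 11],
  [10, 6, 5, 3, 13, 14],
  [10, 6, 9, 3, 13, 14],
  [10, 9, 5, 12, 7, 11],
  [10, 9, 6, 12, 7, 11],
  [10, 12, 3, 9, 7, 14],
  [10, 12, 5, 9, 7, 14],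
  [12, 5, 3, 6, 11, 13],
  [12, 5, 10, 6, 11, 13],
  [12, 6, 3, 5, 11, 14],
  [12, 6, 9, 5, 11, 14],
  [12, 9, 3, 10, 7, 13],
  [12, 9, 6, 10, 7, 13],
  [12, 10, 3, 9, 7, 14],
  [12, 10, 5, 9, 7, 14]]

theorem T1 : search (List.range 16) (fun x => !T.elem x) = false := by decide +kernel
theorem T2 : T.all (fun x => search x (fun _ => true) && x.all (· < 16)) = true := by decide +kernel

def M : List ℕ := [3, 5, 6, 7, 9, 10, 11, 12, 13, 14]

theorem T3 : ∀ x ∈ T, ∀ a ∈ x, a ∈ M := by decide +kernel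
theorem T4 : M.sublists.all (fun L => T.any (fun x => x.all L.elem) ||
    M.any (fun v => !L.elem v && T.all (fun x => x.any (fun a => a != v && !L.elem a))) ||
    decide (6 ≤ L.length)) = true := by decide +kernel

theorem copy4 (F : Finset (Fin 4 → Fin 2)) : HasCopy Q F ↔ ∃ x ∈ T, ∀ a ∈ x, V 4 a ∈ F := by
  rw [copy_iff 4 a4 b4]
  constructor
  · rintro ⟨φ, h1, h2⟩
    refine ⟨[φ 0, φ 1, φ 2, φ 3, φ 4, φ 5], ?_, by simp [h2]⟩
    by_contra hn
    have := (search_iff (List.range 16) (fun x => !T.elem x)).2 ⟨φ, h1, fun i =>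
      List.mem_range.2 (h2 i).1, by simpa using hn⟩
    rw [T1] at this; cases this
  · rintro ⟨x, hx, h⟩
    have := List.all_eq_true.1 T2 x hx
    simp only [Bool.and_eq_true, List.all_eq_true, decide_eq_true_eq] at this
    obtain ⟨φ, h1, h2, -⟩ := (search_iff _ _).1 this.1
    exact ⟨φ, h1, fun i => ⟨this.2 _ (h2 i), h _ (h2 i)⟩⟩

theorem low (F : Finset (Fin 4 → Fin 2)) (h : Saturated Q F) : 12 ≤ F.card := by
  obtain ⟨h1, h2⟩ := h
  have lt : ∀ a ∈ M, a < 2 ^ 4 := by decide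
  simp only [copy4] at h1 h2
  have forced : ∀ v ∈ [0, 1, 2, 4, 8, 15], V 4 v ∈ F := by
    intro v hv
    by_contra hn
    obtain ⟨x, hx, hx'⟩ := h2 _ hn
    refine h1 ⟨x, hx, fun a ha => (Finset.mem_insert.1 (hx' a ha)).resolve_left (fun e => ?_)⟩
    have hm := T3 x hx a ha
    have : ∀ v ∈ [0, 1, 2, 4, 8, 15], v < 2 ^ 4 ∧ v ∉ M := by decide
    exact (this v hv).2 (c4 a (lt a hm) v (this v hv).1 e ▸ hm)
  have h6 : 6 ≤ (M.filter (fun a => V 4 a ∈ F)).length := by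
    have := List.all_eq_true.1 T4 _ (List.mem_sublists.2 (List.filter_sublist (p := fun a => V 4 a ∈ F)))
    simp only [Bool.or_eq_true, List.any_eq_true, List.all_eq_true, List.elem_eq_mem, List.mem_filter,
      decide_eq_true_eq, Bool.and_eq_true, Bool.not_eq_true', decide_eq_false_iff_not, bne_iff_ne] at this
    rcases this with (⟨x, hx, h⟩ | ⟨v, hv, h3, h4⟩) | h
    · exact absurd ⟨x, hx, fun a ha => (h a ha).2⟩ h1
    · obtain ⟨x, hx, hx'⟩ := h2 _ (fun e => h3 ⟨hv, e⟩)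
      obtain ⟨a, ha, e1, e2⟩ := h4 x hx
      have hm := T3 x hx a ha
      rcases Finset.mem_insert.1 (hx' a ha) with e | e
      · exact absurd (c4 a (lt a hm) v (lt v hv) e) e1
      · exact absurd ⟨hm, e⟩ e2
    · exact h
  have nd : ([0, 1, 2, 4, 8, 15] ++ M.filter (fun a => V 4 a ∈ F)).Nodup :=
    List.Nodup.sublist (List.Sublist.append_left List.filter_sublist _) (by decide)
  have := List.toFinset_card_of_nodup nd
  refine le_trans (by rw [this, List.length_append]; simp only [List.length]; omega)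
    (Finset.card_le_card_of_injOn (s := List.toFinset _) (V 4) (fun a ha => ?_) (fun a ha b hb => ?_))
  · rcases List.mem_append.1 (List.mem_toFinset.1 ha) with h | h
    · exact forced a h
    · simpa using (List.mem_filter.1 h).2
  · have : ∀ a ∈ [0, 1, 2, 4, 8, 15] ++ M.filter (fun a => V 4 a ∈ F), a < 2 ^ 4 := fun a ha => by
      rcases List.mem_append.1 ha with h | h
      · exact (by decide : ∀ a ∈ [0, 1, 2, 4, 8, 15], a < 2 ^ 4) a h
      · exact lt a (List.mem_filter.1 h).1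
    exact c4 a (this a (List.mem_toFinset.1 ha)) b (this b (List.mem_toFinset.1 hb))

def L5 : List ℕ := [0, 1, 3, 5, 8, 12, 13, 18, 25, 30, 31]

theorem U1 : search L5 (fun _ => true) = false := by decide +kernel
theorem U2 : ∀ v < 32, v ∈ L5 ∨ search (v :: L5) (fun _ => true) = true := by decide +kernel

theorem up : Saturated Q (L5.toFinset.image (V 5)) := by
  have lt : ∀ a ∈ L5, a < 2 ^ 5 := by decide
  refine ⟨fun h => ?_, fun f hf => ?_⟩
  · obtain ⟨φ, h1, h2⟩ := (copy_iff 5 a5 b5 _).1 h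
    have := (search_iff L5 (fun _ => true)).2 ⟨φ, h1, fun i => by
      obtain ⟨a, ha, e⟩ := Finset.mem_image.1 (h2 i).2
      rw [← c5 a (lt a (List.mem_toFinset.1 ha)) _ (h2 i).1 e]; exact List.mem_toFinset.1 ha, rfl⟩
    rw [U1] at this; cases this
  · obtain ⟨v, hv, rfl⟩ := b5 f
    rcases U2 v hv with h | h
    · exact absurd (Finset.mem_image_of_mem _ (List.mem_toFinset.2 h)) hf
    · obtain ⟨φ, h1, h2, -⟩ := (search_iff _ _).1 h
      refine (copy_iff 5 a5 b5 _).2 ⟨φ, h1, fun i => ?_⟩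
      rcases List.mem_cons.1 (h2 i) with e | e
      · rw [e]; exact ⟨hv, Finset.mem_insert_self _ _⟩
      · exact ⟨lt _ e, Finset.mem_insert_of_mem (Finset.mem_image_of_mem _ (List.mem_toFinset.2 e))⟩

theorem result : ∃ (P : Type) (_ : Fintype P) (_ : PartialOrder P) (n t : ℕ), 0 < n ∧ 0 < t ∧
    HasCopy P (Finset.univ : Finset (Fin n → Fin t)) ∧ sat P (n + 1) t < sat P n t := by
  refine ⟨Q, inferInstance, inferInstance, 4, 2, by norm_num, by norm_num,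
    (copy4 _).2 ⟨T.head!, by decide, fun _ _ => Finset.mem_univ _⟩, ?_⟩
  have h1 : sat Q 5 2 ≤ 11 := le_trans (Nat.sInf_le ⟨_, up, rfl⟩)
    (Finset.card_image_le.trans (List.toFinset_card_le L5))
  have h2 : 12 ≤ sat Q 4 2 := by
    classical
    obtain ⟨F, hF, hm⟩ := Finset.exists_max_image (Finset.univ.filter
      (fun F : Finset (Fin 4 → Fin 2) => ¬ HasCopy Q F)) Finset.card
      ⟨∅, Finset.mem_filter.2 ⟨Finset.mem_univ _, fun ⟨φ, _, _, h⟩ => by simpa using h (0 : Fin 6)⟩⟩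
    refine le_csInf ⟨_, F, ⟨(Finset.mem_filter.1 hF).2, fun f hf => ?_⟩, rfl⟩ ?_
    · by_contra hn
      have := hm _ (Finset.mem_filter.2 ⟨Finset.mem_univ _, hn⟩)
      rw [Finset.card_insert_of_notMem hf] at this
      omega
    · rintro _ ⟨F, hF, rfl⟩
      exact low F hF
  exact lt_of_le_of_lt h1 h2

end Pool.Agent.Results.MP_8c6834_co.Drop
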